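import Pool.Agent.Run7.h472.OH.Iface

set_option autoImplicit false
open MeasureTheory ProbabilityTheory Filter Set
open scoped ENNReal Pointwise Topology

namespace Pool.Agent.Run7.h637.OH

open Pool.Agent.N662.FP Pool.Agent.Run7.h472.OH

/-! ### coarse sequences -/

/-- the nine steps -/
def N9 : Finset (ℤ × ℤ) := ({-1, 0, 1} : Finset ℤ) ×ˢ ({-1, 0, 1} : Finset ℤ)

lemma N9_card : N9.card = 9 := by decide

lemma mem_N9 (z : ℤ × ℤ) (h : nm z ≤ 1) : z ∈ N9 := by
  unfold nm at h
  have h1 : z.1.natAbs ≤ 1 := (le_max_left _ _).trans h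
  have h2 : z.2.natAbs ≤ 1 := (le_max_right _ _).trans h
  unfold N9
  simp only [Finset.mem_product, Finset.mem_insert, Finset.mem_singleton]
  omega

open Classical in
/-- the coarse sequences with `k` steps which start in `St` (constant after the time `k`) -/
noncomputable def Seqs (St : Finset (ℤ × ℤ)) : ℕ → Finset (ℕ → ℤ × ℤ)
  | 0 => St.image (fun a => fun _ => a)
  | k + 1 => ((Seqs St k) ×ˢ N9).image (fun z i => if i ≤ k then z.1 i else z.1 k + z.2)

lemma Seqs_card (St : Finset (ℤ × ℤ)) (k : ℕ) : (Seqs St k).card ≤ St.card * 9 ^ k := by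
  classical
  induction k with
  | zero =>
    simp only [Seqs, pow_zero, mul_one]
    exact Finset.card_image_le
  | succ k ih =>
    simp only [Seqs]
    refine Finset.card_image_le.trans ?_
    rw [Finset.card_product, N9_card, pow_succ, ← mul_assoc]
    exact Nat.mul_le_mul_right 9 ih

lemma Seqs_mem (St : Finset (ℤ × ℤ)) (k : ℕ) (q : ℕ → ℤ × ℤ) (h0 : q 0 ∈ St)
    (hs : ∀ i < k, nm (q (i + 1) - q i) ≤ 1) : (fun i => q (min i k)) ∈ Seqs St k := by
  classical
  induction k with
  | zero =>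
    simp only [Seqs, Finset.mem_image]
    exact ⟨q 0, h0, by ext i <;> simp⟩
  | succ k ih =>
    simp only [Seqs, Finset.mem_image, Finset.mem_product]
    refine ⟨((fun i => q (min i k)), q (k + 1) - q k),
      ⟨ih (fun i hi => hs i (by omega)), mem_N9 _ (hs k (by omega))⟩, ?_⟩
    funext i
    simp only [min_self]
    by_cases hi : i ≤ k
    · rw [if_pos hi, min_eq_left hi, min_eq_left (by omega)]
    · rw [if_neg hi, min_eq_right (by omega : k + 1 ≤ i)]
      abel

/-! ### residue classes -/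

lemma res_dist (M : ℕ) (b b' : ℤ × ℤ) (hb : b ≠ b') (h1 : (b.1 : ZMod M) = (b'.1 : ZMod M))
    (h2 : (b.2 : ZMod M) = (b'.2 : ZMod M)) : M ≤ nm (b - b') := by
  rw [eq_comm, ZMod.intCast_eq_intCast_iff_dvd_sub] at h1 h2
  have key : ∀ z : ℤ, (M : ℤ) ∣ z → z ≠ 0 → M ≤ z.natAbs := by
    intro z hz hz0
    have := Int.natAbs_dvd_natAbs.mpr hz
    rw [Int.natAbs_natCast] at this
    exact Nat.le_of_dvd (Int.natAbs_pos.mpr hz0) this
  unfold nm
  by_cases e1 : b.1 = b'.1
  · have e2 : b.2 ≠ b'.2 := fun h => hb (Prod.ext e1 h)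
    refine (key _ h2 (sub_ne_zero.mpr e2)).trans ?_
    exact le_max_right _ _
  · refine (key _ h1 (sub_ne_zero.mpr e1)).trans ?_
    exact le_max_left _ _

/-! ### one class -/

/-- the contribution of a block -/
noncomputable def hh (g lam β w : ℝ) : ℝ := if g < w then lam * w + β else 0

/-- its exponential -/
noncomputable def ff (g lam β w : ℝ) : ℝ≥0∞ := ENNReal.ofReal (Real.exp (hh g lam β w))

lemma hh_meas (g lam β : ℝ) : Measurable (hh g lam β) := by
  unfold hh
  exact Measurable.ite measurableSet_Ioi (by fun_prop) measurable_const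

lemma ff_meas (g lam β : ℝ) : Measurable (ff g lam β) := by
  unfold ff
  exact (Real.measurable_exp.comp (hh_meas g lam β)).ennreal_ofReal

section
variable {Ω : Type} [MeasureSpace Ω]

lemma env_meas (X : Sym2 (ℤ × ℤ) → Ω → ℝ) (hX : Iid X) : Measurable (fun ω => env X ω) :=
  measurable_pi_lambda _ (fun e => hX.meas e)

/-- the exponential moment of one block -/
lemma mom [IsProbabilityMeasure (volume : Measure Ω)] (X : Sym2 (ℤ × ℤ) → Ω → ℝ) (hX : Iid X)
    (μ : Seminorm ℝ (ℝ × ℝ)) (L n : ℕ) (hm : Measurable fun x : Env => W μ L n 0 x)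
    (g lam β e : ℝ) (hβ : Real.exp β * e ≤ 1) (hE : EM X μ L n g lam ≤ ENNReal.ofReal e) :
    ∫⁻ ω, ff g lam β (W μ L n 0 (env X ω)) ∂(volume : Measure Ω) ≤ 2 := by
  have hWm : Measurable (fun ω => W μ L n 0 (env X ω)) := hm.comp (env_meas X hX)
  have hS : MeasurableSet {ω | g < W μ L n 0 (env X ω)} := hWm measurableSet_Ioi
  have h1 : ∀ ω, ff g lam β (W μ L n 0 (env X ω)) ≤ 1 + ENNReal.ofReal (Real.exp β) *
      Set.indicator {ω | g < W μ L n 0 (env X ω)}
        (fun ω => ENNReal.ofReal (Real.exp (lam * W μ L n 0 (env X ω)))) ω := by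
    intro ω
    unfold ff hh
    by_cases h : g < W μ L n 0 (env X ω)
    · rw [if_pos h, Set.indicator_of_mem (by exact h), ← ENNReal.ofReal_mul (Real.exp_pos _).le,
        ← Real.exp_add, add_comm β]
      exact le_add_self
    · rw [if_neg h]
      simp
  calc ∫⁻ ω, ff g lam β (W μ L n 0 (env X ω)) ∂(volume : Measure Ω)
      ≤ ∫⁻ ω, (1 + ENNReal.ofReal (Real.exp β) *
      Set.indicator {ω | g < W μ L n 0 (env X ω)}
        (fun ω => ENNReal.ofReal (Real.exp (lam * W μ L n 0 (env X ω)))) ω)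
          ∂(volume : Measure Ω) := lintegral_mono h1
    _ = 1 + ENNReal.ofReal (Real.exp β) * EM X μ L n g lam := by
        rw [lintegral_add_left measurable_const, lintegral_const_mul' _ _ ENNReal.ofReal_ne_top,
          lintegral_indicator hS]
        simp [EM]
    _ ≤ 1 + ENNReal.ofReal (Real.exp β) * ENNReal.ofReal e := by gcongr
    _ = 1 + ENNReal.ofReal (Real.exp β * e) := by
        rw [ENNReal.ofReal_mul (Real.exp_pos _).le]
    _ ≤ 1 + ENNReal.ofReal 1 := by gcongr
    _ = 2 := by rw [ENNReal.ofReal_one]; norm_num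

lemma one [IsProbabilityMeasure (volume : Measure Ω)] (X : Sym2 (ℤ × ℤ) → Ω → ℝ) (hX : Iid X)
    (μ : Seminorm ℝ (ℝ × ℝ)) (L n : ℕ) (hm : ∀ b : ℤ × ℤ, Measurable fun x : Env => W μ L n b x)
    (g lam β e : ℝ) (hβ : Real.exp β * e ≤ 1) (hE : EM X μ L n g lam ≤ ENNReal.ofReal e)
    (A : Finset (ℤ × ℤ))
    (hI : ∫⁻ ω, ∏ b ∈ A, ff g lam β (W μ L n b (env X ω)) ∂(volume : Measure Ω) =
      (∫⁻ ω, ff g lam β (W μ L n 0 (env X ω)) ∂(volume : Measure Ω)) ^ A.card)
    (N : ℕ) (hN : A.card ≤ N) (y : ℝ) :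
    (volume : Measure Ω) {ω | y ≤ ∑ b ∈ A, hh g lam β (W μ L n b (env X ω))} ≤
      ENNReal.ofReal (Real.exp (-y) * 2 ^ N) := by
  have h1 : ∫⁻ ω, ∏ b ∈ A, ff g lam β (W μ L n b (env X ω)) ∂(volume : Measure Ω) ≤ 2 ^ N := by
    rw [hI]
    calc (∫⁻ ω, ff g lam β (W μ L n 0 (env X ω)) ∂(volume : Measure Ω)) ^ A.card
        ≤ 2 ^ A.card := by
          have := mom X hX μ L n (hm 0) g lam β e hβ hE
          gcongr
      _ ≤ 2 ^ N := pow_le_pow_right₀ (by norm_num) hN
  have hpm : Measurable (fun ω => ∏ b ∈ A, ff g lam β (W μ L n b (env X ω))) :=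
    Finset.measurable_prod _ (fun b _ => (ff_meas g lam β).comp ((hm b).comp (env_meas X hX)))
  have h2 := mul_meas_ge_le_lintegral (μ := (volume : Measure Ω)) hpm (ENNReal.ofReal (Real.exp y))
  have h3 : {ω | y ≤ ∑ b ∈ A, hh g lam β (W μ L n b (env X ω))} ⊆
      {ω | ENNReal.ofReal (Real.exp y) ≤ ∏ b ∈ A, ff g lam β (W μ L n b (env X ω))} := by
    intro ω hω
    simp only [mem_ofPred_eq] at hω ⊢
    unfold ff
    rw [← ENNReal.ofReal_prod_of_nonneg (fun _ _ => (Real.exp_pos _).le), ← Real.exp_sum]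
    exact ENNReal.ofReal_le_ofReal (Real.exp_le_exp.mpr hω)
  have h4 : ENNReal.ofReal (Real.exp y) *
      (volume : Measure Ω) {ω | y ≤ ∑ b ∈ A, hh g lam β (W μ L n b (env X ω))} ≤ 2 ^ N :=
    (mul_le_mul_right (measure_mono h3) _).trans (h2.trans h1)
  have e1 : ENNReal.ofReal (Real.exp (-y)) * ENNReal.ofReal (Real.exp y) = 1 := by
    rw [← ENNReal.ofReal_mul (Real.exp_pos _).le, ← Real.exp_add]
    simp
  calc (volume : Measure Ω) {ω | y ≤ ∑ b ∈ A, hh g lam β (W μ L n b (env X ω))}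
      = ENNReal.ofReal (Real.exp (-y)) * (ENNReal.ofReal (Real.exp y) *
        (volume : Measure Ω) {ω | y ≤ ∑ b ∈ A, hh g lam β (W μ L n b (env X ω))}) := by
        rw [← mul_assoc, e1, one_mul]
    _ ≤ ENNReal.ofReal (Real.exp (-y)) * 2 ^ N := by gcongr
    _ = ENNReal.ofReal (Real.exp (-y) * 2 ^ N) := by
        rw [ENNReal.ofReal_mul (Real.exp_pos _).le, ENNReal.ofReal_pow (by norm_num)]
        norm_num

end

/-! ### the deterministic part -/

lemma badSet_congr (μ : Seminorm ℝ (ℝ × ℝ)) (L n : ℕ) (g : ℝ) (x : Env) (q q' : ℕ → ℤ × ℤ) (k : ℕ)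
    (h : ∀ i ≤ k, q i = q' i) : badSet μ L n g x q k = badSet μ L n g x q' k := by
  classical
  unfold badSet
  have : (Finset.range (k + 1)).image q = (Finset.range (k + 1)).image q' := by
    apply Finset.image_congr
    intro i hi
    rw [Finset.coe_range, Set.mem_Iio] at hi
    exact h i (by omega)
  rw [this]

/-- the sum over the bad blocks, written with `hh` -/
lemma sum_bad (μ : Seminorm ℝ (ℝ × ℝ)) (L n : ℕ) (g lam β : ℝ) (x : Env) (q : ℕ → ℤ × ℤ) (k : ℕ)
    (F : Finset (ℤ × ℤ)) (hF : ∀ b, b ∈ F ↔ ∃ i ≤ k, q i = b) :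
    ∑ b ∈ F, hh g lam β (W μ L n b x) =
      lam * ∑ b ∈ badSet μ L n g x q k, W μ L n b x + β * (badSet μ L n g x q k).card := by
  classical
  have h1 : badSet μ L n g x q k = F.filter (fun b => g < W μ L n b x) := by
    unfold badSet
    have : (Finset.range (k + 1)).image q = F := by
      ext b
      rw [Finset.mem_image, hF]
      constructor
      · rintro ⟨i, hi, rfl⟩
        rw [Finset.mem_range] at hi
        exact ⟨i, by omega, rfl⟩
      · rintro ⟨i, hi, rfl⟩
        exact ⟨i, by rw [Finset.mem_range]; omega, rfl⟩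
    rw [this]
  rw [h1, Finset.mul_sum, mul_comm β, ← nsmul_eq_mul, ← Finset.sum_const, ← Finset.sum_add_distrib,
    Finset.sum_filter]
  rfl

theorem t_CG (_hW : S_WBD) (hD : S_DET) (hM : S_MEAS) (hI : S_IND) : S_CG := by
  classical
  intro Ω _ _ X hX μ c C L hc n hn g lam u H hg hgn hlam hu hH hKg hE St
  have hm := hM μ c C L hc n hn
  set M : ℕ := 2 * L + 1 with hMd
  have : NeZero M := ⟨by omega⟩
  have hMr : (M : ℝ) = 2 * (L : ℝ) + 1 := by rw [hMd]; push_cast; ring
  have hM0 : (0 : ℝ) < M := by rw [hMr]; positivity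
  set K : ℝ := 1 + 2 * H / (c * n) with hK
  set β : ℝ := (M : ℝ) ^ 2 * Real.log 36 with hβd
  have hlog : 0 < Real.log 36 := Real.log_pos (by norm_num)
  have hβ0 : 0 ≤ β := by positivity
  rw [← hMr] at hE ⊢
  have hβ : Real.exp β * (36 : ℝ) ^ (-((M : ℝ) ^ 2)) ≤ 1 := by
    rw [Real.rpow_def_of_pos (by norm_num), ← Real.exp_add, hβd]
    have : (M : ℝ) ^ 2 * Real.log 36 + Real.log 36 * (-((M : ℝ) ^ 2)) = 0 := by ring
    rw [this, Real.exp_zero]
  have hcn : 0 < c * n := by
    have := hc.c_pos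
    have : (0 : ℝ) < n := by exact_mod_cast hn
    positivity
  -- the bound for one sequence
  set Y : ℕ → ℝ := fun k => lam * u / 4 + β * (k + 1 - K) with hY
  let cl : (ℕ → ℤ × ℤ) → ℕ → ZMod M × ZMod M → Finset (ℤ × ℤ) := fun q k r =>
    ((Finset.range (k + 1)).image q).filter (fun b => ((b.1 : ZMod M), (b.2 : ZMod M)) = r)
  let E : ℕ → (ℕ → ℤ × ℤ) → ZMod M × ZMod M → Set Ω := fun k q r =>
    {ω | Y k / (M : ℝ) ^ 2 ≤ ∑ b ∈ cl q k r, hh g lam β (W μ L n b (env X ω))}
  have hE1 : ∀ k q r, (volume : Measure Ω) (E k q r) ≤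
      ENNReal.ofReal (Real.exp (-(Y k / (M : ℝ) ^ 2)) * 2 ^ (k + 1)) := by
    intro k q r
    refine one X hX μ L n hm g lam β _ hβ hE (cl q k r) ?_ (k + 1) ?_ _
    · refine hI Ω X hX μ c C L hc n hn (ff g lam β) (ff_meas g lam β) (cl q k r) ?_
      intro b hb b' hb' hne
      have h1 := (Finset.mem_filter.mp hb).2
      have h2 := (Finset.mem_filter.mp hb').2
      rw [← h2] at h1
      exact res_dist M b b' hne (congrArg Prod.fst h1) (congrArg Prod.snd h1)
    · refine (Finset.card_filter_le _ _).trans (Finset.card_image_le.trans ?_)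
      rw [Finset.card_range]
  -- the covering
  have hcov : {ω | Low μ n St H u (env X ω)} ⊆ ⋃ k : ℕ, ⋃ q ∈ Seqs St k, ⋃ r, E k q r := by
    intro ω hω
    obtain ⟨m, p, hp, hst, hpH, htm⟩ := hω
    obtain ⟨k, q, hq0, hqs, hbad, hdef⟩ := hD μ c C L hc n hn g hg hgn (env X ω) m p hp
    set x := env X ω with hx
    have ht1 : tm x p 0 m ≤ H := by linarith
    have ht2 : 1 + 2 * tm x p 0 m / (c * n) ≤ K := by
      rw [hK]
      have : 2 * tm x p 0 m / (c * n) ≤ 2 * H / (c * n) :=
        div_le_div_of_nonneg_right (by linarith) hcn.le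
      linarith
    set B := badSet μ L n g x q k with hB
    have hc1 : (k : ℝ) + 1 ≤ K + B.card := by
      have := hbad k le_rfl
      linarith
    have hs1 : u / 4 ≤ ∑ b ∈ B, W μ L n b x := by
      have h1 : (1 + 2 * tm x p 0 m / (c * n)) * g ≤ K * g := mul_le_mul_of_nonneg_right ht2 hg
      linarith
    have hsum : Y k ≤ ∑ b ∈ (Finset.range (k + 1)).image (fun i => q (min i k)),
        hh g lam β (W μ L n b x) := by
      rw [sum_bad μ L n g lam β x q k]
      · rw [← hB]
        have h1 : lam * (u / 4) ≤ lam * ∑ b ∈ B, W μ L n b x := mul_le_mul_of_nonneg_left hs1 hlam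
        have h2 : β * (k + 1 - K) ≤ β * B.card := mul_le_mul_of_nonneg_left (by linarith) hβ0
        have h3 : Y k = lam * (u / 4) + β * (k + 1 - K) := by rw [hY]; ring
        rw [h3]
        exact add_le_add h1 h2
      · intro b
        rw [Finset.mem_image]
        constructor
        · rintro ⟨i, hi, rfl⟩
          exact ⟨min i k, min_le_right _ _, rfl⟩
        · rintro ⟨i, hi, rfl⟩
          exact ⟨i, by rw [Finset.mem_range]; omega, by rw [min_eq_left hi]⟩
    rw [← Finset.sum_fiberwise (s := (Finset.range (k + 1)).image (fun i => q (min i k)))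
      (g := fun b : ℤ × ℤ => ((b.1 : ZMod M), (b.2 : ZMod M)))] at hsum
    have hpig : ∃ r ∈ (Finset.univ : Finset (ZMod M × ZMod M)), Y k / (M : ℝ) ^ 2 ≤
        ∑ b ∈ cl (fun i => q (min i k)) k r, hh g lam β (W μ L n b x) := by
      apply Finset.exists_le_of_sum_le Finset.univ_nonempty
      refine le_trans (le_of_eq ?_) hsum
      rw [Finset.sum_const, Finset.card_univ, Fintype.card_prod, ZMod.card, nsmul_eq_mul]
      push_cast
      field_simp
    obtain ⟨r, -, hr⟩ := hpig
    simp only [mem_iUnion]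
    exact ⟨k, fun i => q (min i k), Seqs_mem St k q (hq0 ▸ hst) hqs, r, hr⟩
  -- the sum
  set Z : ℝ := St.card * (M : ℝ) ^ 2 * (36 : ℝ) ^ K * Real.exp (-(lam * u / (4 * (M : ℝ) ^ 2)))
    with hZ
  have hZ0 : 0 ≤ Z := by positivity
  have hkb : ∀ k : ℕ, (volume : Measure Ω) (⋃ q ∈ Seqs St k, ⋃ r, E k q r) ≤
      ENNReal.ofReal (Z / 9 * (1 / 2) ^ (k + 1)) := by
    intro k
    have e1 : Real.exp (-(Y k / (M : ℝ) ^ 2)) = Real.exp (-(lam * u / (4 * (M : ℝ) ^ 2))) *
        (36 : ℝ) ^ K * ((36 : ℝ) ^ (k + 1))⁻¹ := by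
      have e0 : ((36 : ℝ) ^ (k + 1))⁻¹ = Real.exp (-(Real.log 36 * (k + 1))) := by
        have : (36 : ℝ) ^ (k + 1) = Real.exp (Real.log 36 * (k + 1)) := by
          rw [mul_comm, show ((k : ℝ) + 1) = ((k + 1 : ℕ) : ℝ) by push_cast; ring,
            Real.exp_nat_mul, Real.exp_log (by norm_num)]
        rw [this, Real.exp_neg]
      rw [e0, Real.rpow_def_of_pos (by norm_num), ← Real.exp_add, ← Real.exp_add]
      congr 1
      rw [hY, hβd]
      field_simp
      ring
    calc (volume : Measure Ω) (⋃ q ∈ Seqs St k, ⋃ r, E k q r)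
        ≤ ∑ q ∈ Seqs St k, (volume : Measure Ω) (⋃ r, E k q r) := measure_biUnion_finset_le _ _
      _ ≤ ∑ q ∈ Seqs St k, ∑ r : ZMod M × ZMod M,
          ENNReal.ofReal (Real.exp (-(Y k / (M : ℝ) ^ 2)) * 2 ^ (k + 1)) := by
          apply Finset.sum_le_sum
          intro q _
          refine (measure_iUnion_fintype_le _ _).trans ?_
          exact Finset.sum_le_sum (fun r _ => hE1 k q r)
      _ = ENNReal.ofReal (((Seqs St k).card : ℝ) * ((M : ℝ) ^ 2 *
            (Real.exp (-(Y k / (M : ℝ) ^ 2)) * 2 ^ (k + 1)))) := by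
          rw [Finset.sum_const, Finset.sum_const, Finset.card_univ, Fintype.card_prod, ZMod.card,
            nsmul_eq_mul, nsmul_eq_mul,
            ENNReal.ofReal_mul (by positivity : (0 : ℝ) ≤ ((Seqs St k).card : ℝ)),
            ENNReal.ofReal_mul (by positivity : (0 : ℝ) ≤ (M : ℝ) ^ 2), ENNReal.ofReal_natCast,
            ENNReal.ofReal_pow (by positivity), ENNReal.ofReal_natCast, sq]
          push_cast
          ring
      _ ≤ ENNReal.ofReal (Z / 9 * (1 / 2) ^ (k + 1)) := by
          apply ENNReal.ofReal_le_ofReal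
          have hcard : ((Seqs St k).card : ℝ) ≤ St.card * 9 ^ k := by
            exact_mod_cast Seqs_card St k
          calc ((Seqs St k).card : ℝ) * ((M : ℝ) ^ 2 *
                (Real.exp (-(Y k / (M : ℝ) ^ 2)) * 2 ^ (k + 1)))
              ≤ (St.card * 9 ^ k) * ((M : ℝ) ^ 2 *
                (Real.exp (-(Y k / (M : ℝ) ^ 2)) * 2 ^ (k + 1))) :=
                mul_le_mul_of_nonneg_right hcard (by positivity)
            _ = Z / 9 * (1 / 2) ^ (k + 1) := by
                rw [e1, hZ]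
                have e2 : (36 : ℝ) ^ (k + 1) = 9 ^ k * 9 * (2 ^ (k + 1) * 2 ^ (k + 1)) := by
                  rw [← pow_succ, ← mul_pow, ← mul_pow]
                  norm_num
                have e3 : ((1 : ℝ) / 2) ^ (k + 1) = ((2 : ℝ) ^ (k + 1))⁻¹ := by
                  rw [one_div, inv_pow]
                rw [e2, e3]
                field_simp
  have hfin : (volume : Measure Ω) {ω | Low μ n St H u (env X ω)} ≤ ENNReal.ofReal Z := by
    calc (volume : Measure Ω) {ω | Low μ n St H u (env X ω)}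
        ≤ (volume : Measure Ω) (⋃ k : ℕ, ⋃ q ∈ Seqs St k, ⋃ r, E k q r) := measure_mono hcov
      _ ≤ ∑' k : ℕ, (volume : Measure Ω) (⋃ q ∈ Seqs St k, ⋃ r, E k q r) := measure_iUnion_le _
      _ ≤ ∑' k : ℕ, ENNReal.ofReal (Z / 9 * (1 / 2) ^ (k + 1)) := ENNReal.tsum_le_tsum hkb
      _ = ENNReal.ofReal (∑' k : ℕ, Z / 9 * (1 / 2) ^ (k + 1)) := by
          rw [ENNReal.ofReal_tsum_of_nonneg]
          · intro k; positivity
          · apply Summable.mul_left
            exact (summable_nat_add_iff 1).mpr summable_geometric_two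
      _ ≤ ENNReal.ofReal Z := by
          apply ENNReal.ofReal_le_ofReal
          rw [tsum_mul_left]
          have : ∑' k : ℕ, ((1 : ℝ) / 2) ^ (k + 1) = 1 := by
            have h := tsum_geometric_two' (1 : ℝ)
            refine Eq.trans ?_ h
            congr 1
            funext k
            rw [pow_succ, div_pow, one_pow]
            ring
          rw [this]
          linarith
  rw [Measure.real]
  exact ENNReal.toReal_le_of_le_ofReal hZ0 hfin

end Pool.Agent.Run7.h637.OH
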