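import Pool.Agent.Run7.h472.OH.Iface2

set_option autoImplicit false
open MeasureTheory ProbabilityTheory Filter Set
open scoped ENNReal Pointwise Topology

namespace Pool.Agent.Run7.h637.OH

open Pool.Agent.N662.FP Pool.Agent.Run7.h472.OH

/-- `N ^ k * exp (-(c N ^ b))` is bounded -/
lemma pow_exp_bd (k : ℕ) (b c N : ℝ) (hb : 0 < b) (hc : 0 < c) (hN : 1 ≤ N) :
    N ^ k * Real.exp (-(c * N ^ b)) ≤ (⌈(k : ℝ) / b⌉₊.factorial : ℝ) / c ^ ⌈(k : ℝ) / b⌉₊ := by
  set p : ℕ := ⌈(k : ℝ) / b⌉₊ with hp
  have hN0 : 0 < N := by linarith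
  have h1 := Real.pow_div_factorial_le_exp (c * N ^ b) (by positivity) p
  have h2 : N ^ k ≤ (N ^ b) ^ p := by
    rw [← Real.rpow_natCast, ← Real.rpow_natCast, ← Real.rpow_mul hN0.le]
    apply Real.rpow_le_rpow_of_exponent_le hN
    have := Nat.le_ceil ((k : ℝ) / b)
    rw [div_le_iff₀ hb] at this
    linarith
  have hf : (0 : ℝ) < (p.factorial : ℝ) := by exact_mod_cast p.factorial_pos
  rw [mul_pow, div_le_iff₀ hf] at h1
  rw [Real.exp_neg, ← div_eq_mul_inv, div_le_iff₀ (Real.exp_pos _), div_mul_eq_mul_div,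
    le_div_iff₀ (by positivity)]
  calc N ^ k * c ^ p ≤ (N ^ b) ^ p * c ^ p := mul_le_mul_of_nonneg_right h2 (by positivity)
    _ = c ^ p * (N ^ b) ^ p := by ring
    _ ≤ Real.exp (c * N ^ b) * (p.factorial : ℝ) := h1
    _ = (p.factorial : ℝ) * Real.exp (c * N ^ b) := by ring

theorem t_MLO : S_MLO := by
  intro Ω _ _ T μ c C L hc hmeas hpos κ κ2 A hk hkk hk2 hA hT k
  have hκ2 : 0 < κ2 := hk.trans hkk
  have hCp := hc.C_pos
  set b : ℝ := 1 - κ / κ2 with hb
  have hb0 : 0 < b := by
    rw [hb]
    have : κ / κ2 < 1 := (div_lt_one hκ2).mpr hkk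
    linarith
  set c' : ℝ := C ^ (1 - 1 / κ2) / A with hc'
  have hc'0 : 0 < c' := by positivity
  set M' : ℝ := C ^ k * (A * ((⌈(k : ℝ) / b⌉₊.factorial : ℝ) / c' ^ ⌈(k : ℝ) / b⌉₊)) with hM'
  have hM'0 : 0 ≤ M' := by positivity
  refine ⟨2 + M', by positivity, ?_⟩
  intro v
  set m : ℝ := μ (em v) with hm
  have hm0 : 0 ≤ m := apply_nonneg _ _
  set N : ℝ := 1 + (nm v : ℝ) with hN
  have hN1 : 1 ≤ N := by rw [hN]; linarith [(Nat.cast_nonneg (nm v) : (0 : ℝ) ≤ nm v)]
  have hN0 : 0 < N := by linarith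
  set s : ℝ := N ^ (1 - κ) with hs
  have hs1 : 1 ≤ s := Real.one_le_rpow hN1 (by linarith)
  have hs0 : 0 < s := by linarith
  have hmN : m ≤ C * N := by
    have := hc.hi v
    rw [hN]
    nlinarith
  have hbd : ∀ᵐ ω ∂(volume : Measure Ω), max (m - T ω v) 0 ≤ m := by
    filter_upwards [hpos v] with ω hω
    exact max_le (by linarith) hm0
  have hint : Integrable (fun ω => (max (m - T ω v) 0) ^ k) (volume : Measure Ω) := by
    refine Integrable.of_bound ?_ (m ^ k) ?_
    · exact (((aemeasurable_const.sub (hmeas v)).max aemeasurable_const).pow_const k).aestronglyMeasurable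
    · filter_upwards [hbd] with ω hω
      have h0 : 0 ≤ max (m - T ω v) 0 := le_max_right _ _
      rw [Real.norm_of_nonneg (by positivity)]
      exact pow_le_pow_left₀ h0 hω k
  refine ⟨hint, ?_⟩
  set S : Set Ω := {ω | T ω v ≤ m - s} with hS
  have hSm : NullMeasurableSet S (volume : Measure Ω) :=
    (hmeas v).nullMeasurable measurableSet_Iic
  have hle : ∫ ω, (max (m - T ω v) 0) ^ k ∂(volume : Measure Ω) ≤
      s ^ k + m ^ k * (volume : Measure Ω).real S := by
    have hi2 : Integrable (fun ω => s ^ k + S.indicator (fun _ => m ^ k) ω)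
        (volume : Measure Ω) :=
      (integrable_const _).add ((integrable_const _).indicator₀ hSm)
    calc ∫ ω, (max (m - T ω v) 0) ^ k ∂(volume : Measure Ω)
        ≤ ∫ ω, (s ^ k + S.indicator (fun _ => m ^ k) ω) ∂(volume : Measure Ω) := by
          apply integral_mono_ae hint hi2
          filter_upwards [hbd] with ω hω
          have h0 : 0 ≤ max (m - T ω v) 0 := le_max_right _ _
          by_cases h : ω ∈ S
          · rw [Set.indicator_of_mem h]
            have := pow_le_pow_left₀ h0 hω k
            have : 0 ≤ s ^ k := by positivity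
            linarith
          · rw [Set.indicator_of_notMem h, add_zero]
            have h3 : m - s < T ω v := by
              rw [hS] at h
              simpa using h
            exact pow_le_pow_left₀ h0 (max_le (by linarith) hs0.le) k
      _ = s ^ k + m ^ k * (volume : Measure Ω).real S := by
          rw [integral_add (integrable_const _) ((integrable_const _).indicator₀ hSm),
            integral_indicator₀ hSm, setIntegral_const, integral_const]
          simp [mul_comm]
  refine hle.trans ?_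
  have hsk : 1 ≤ s ^ k := one_le_pow₀ hs1
  rcases le_or_gt m s with hms | hms
  · have h1 : m ^ k * (volume : Measure Ω).real S ≤ s ^ k * 1 :=
      mul_le_mul (pow_le_pow_left₀ hm0 hms k) measureReal_le_one measureReal_nonneg (by positivity)
    nlinarith
  · have hmp : 0 < m := hs0.trans hms
    have h1 := hT v (s / m) (by positivity) ((div_le_one hmp).mpr hms.le)
    have e1 : (1 - s / m) * m = m - s := by field_simp
    rw [e1] at h1
    have h2 : c' * N ^ b ≤ (s / m) ^ (1 / κ2) * m / A := by
      rw [hc', div_mul_eq_mul_div]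
      apply div_le_div_of_nonneg_right _ hA.le
      have e2 : (s / m) ^ (1 / κ2) * m = s ^ (1 / κ2) * m ^ (1 - 1 / κ2) := by
        rw [Real.div_rpow hs0.le hmp.le, Real.rpow_sub hmp, Real.rpow_one]
        ring
      have e3 : C ^ (1 - 1 / κ2) * N ^ b = s ^ (1 / κ2) * (C * N) ^ (1 - 1 / κ2) := by
        rw [Real.mul_rpow hCp.le hN0.le, hs, ← Real.rpow_mul hN0.le]
        have : N ^ b = N ^ ((1 - κ) * (1 / κ2)) * N ^ (1 - 1 / κ2) := by
          rw [← Real.rpow_add hN0]
          congr 1
          rw [hb]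
          ring
        rw [this]
        ring
      rw [e2, e3]
      apply mul_le_mul_of_nonneg_left _ (by positivity)
      apply Real.rpow_le_rpow_of_nonpos hmp hmN
      have : 1 ≤ 1 / κ2 := by rw [le_div_iff₀ hκ2]; linarith
      linarith
    have h3 : (volume : Measure Ω).real S ≤ A * Real.exp (-(c' * N ^ b)) :=
      h1.trans (mul_le_mul_of_nonneg_left (Real.exp_le_exp.mpr (by linarith)) hA.le)
    have h4 : m ^ k ≤ C ^ k * N ^ k := by
      rw [← mul_pow]; exact pow_le_pow_left₀ hm0 hmN k
    have h5 := pow_exp_bd k b c' N hb0 hc'0 hN1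
    have h6 : m ^ k * (volume : Measure Ω).real S ≤ M' := by
      calc m ^ k * (volume : Measure Ω).real S ≤ (C ^ k * N ^ k) * (A * Real.exp (-(c' * N ^ b))) :=
            mul_le_mul h4 h3 measureReal_nonneg (by positivity)
        _ = C ^ k * (A * (N ^ k * Real.exp (-(c' * N ^ b)))) := by ring
        _ ≤ M' := by
            rw [hM']
            apply mul_le_mul_of_nonneg_left _ (by positivity)
            exact mul_le_mul_of_nonneg_left h5 hA.le
    nlinarith

end Pool.Agent.Run7.h637.OH
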