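import Pool.Agent.Run7.h472.OH.Iface

set_option autoImplicit false
open MeasureTheory ProbabilityTheory Filter Set
open scoped ENNReal Pointwise Topology

namespace Pool.Agent.Run7.h637.OH

open Pool.Agent.N662.FP Pool.Agent.Run7.h472.OH

lemma summ_nat (k a : ℝ) (hk : 0 < k) (ha : 0 < a) :
    Summable (fun n : ℕ => Real.exp (-(k * (n : ℝ) ^ a))) := by
  have h1 : (fun x : ℝ => Real.exp (-k * x)) =o[atTop] fun x : ℝ => x ^ (-(2 / a)) :=
    isLittleO_exp_neg_mul_rpow_atTop hk _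
  have h2 : Tendsto (fun n : ℕ => (n : ℝ) ^ a) atTop atTop :=
    (tendsto_rpow_atTop ha).comp tendsto_natCast_atTop_atTop
  have h3 := h1.comp_tendsto h2
  refine summable_of_isBigO_nat (g := fun n : ℕ => (n : ℝ) ^ (-2 : ℝ)) ?_ ?_
  · exact Real.summable_nat_rpow.mpr (by norm_num)
  · refine (h3.isBigO.congr' ?_ ?_)
    · filter_upwards with n
      simp [Function.comp]
    · filter_upwards [eventually_gt_atTop 0] with n hn
      simp only [Function.comp]
      rw [← Real.rpow_mul (by positivity)]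
      congr 1
      field_simp

lemma summ_int (k a : ℝ) (hk : 0 < k) (ha : 0 < a) :
    Summable (fun n : ℤ => Real.exp (-(k * (|(n : ℝ)|) ^ a))) := by
  refine Summable.of_nat_of_neg ?_ ?_
  · refine (summ_nat k a hk ha).congr ?_
    intro n
    simp
  · refine (summ_nat k a hk ha).congr ?_
    intro n
    simp

lemma nm_cast (v : ℤ × ℤ) : (nm v : ℝ) = max |(v.1 : ℝ)| |(v.2 : ℝ)| := by
  unfold nm
  push_cast
  rw [Nat.cast_natAbs, Nat.cast_natAbs]
  push_cast
  rfl

lemma summ_pl (k a : ℝ) (hk : 0 < k) (ha : 0 < a) :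
    Summable (fun v : ℤ × ℤ => Real.exp (-(k * (nm v : ℝ) ^ a))) := by
  have h1 := summ_int (k / 2) a (by positivity) ha
  have h2 := h1.mul_of_nonneg h1 (fun _ => (Real.exp_pos _).le) (fun _ => (Real.exp_pos _).le)
  refine Summable.of_nonneg_of_le (fun _ => (Real.exp_pos _).le) ?_ h2
  rintro ⟨x, y⟩
  simp only
  rw [← Real.exp_add, nm_cast]
  apply Real.exp_le_exp.mpr
  have hx : |(x : ℝ)| ^ a ≤ (max |(x : ℝ)| |(y : ℝ)|) ^ a :=
    Real.rpow_le_rpow (abs_nonneg _) (le_max_left _ _) ha.le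
  have hy : |(y : ℝ)| ^ a ≤ (max |(x : ℝ)| |(y : ℝ)|) ^ a :=
    Real.rpow_le_rpow (abs_nonneg _) (le_max_right _ _) ha.le
  simp only
  nlinarith

/-- the norm of a vector of the unit box -/
lemma box_bd (μ : Seminorm ℝ (ℝ × ℝ)) (c C : ℝ) (L : ℕ) (h : Cst μ c C L) (x : ℝ × ℝ)
    (h1 : |x.1| ≤ 1 / 2) (h2 : |x.2| ≤ 1 / 2) : μ x ≤ C := by
  have e : x = x.1 • (em (1, 0)) + x.2 • (em (0, 1)) := by
    ext <;> simp [N662.FP.em]
  have a1 : μ (em (1, 0)) ≤ C := by
    have := h.hi (1, 0)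
    simpa [nm] using this
  have a2 : μ (em (0, 1)) ≤ C := by
    have := h.hi (0, 1)
    simpa [nm] using this
  have hC := h.C_pos
  rw [e]
  refine (map_add_le_add μ _ _).trans ?_
  rw [map_smul_eq_mul, map_smul_eq_mul, Real.norm_eq_abs, Real.norm_eq_abs]
  have n1 := apply_nonneg μ (em (1, 0))
  have n2 := apply_nonneg μ (em (0, 1))
  nlinarith [abs_nonneg x.1, abs_nonneg x.2]

/-- a point outside the multiple of the ball -/
lemma out_ball (μ : Seminorm ℝ (ℝ × ℝ)) (r : ℝ) (hr : 0 < r) (x : ℝ × ℝ)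
    (h : x ∉ r • {x : ℝ × ℝ | μ x ≤ 1}) : r < μ x := by
  by_contra hc
  push Not at hc
  apply h
  rw [Set.mem_smul_set]
  refine ⟨r⁻¹ • x, ?_, ?_⟩
  · simp only [mem_ofPred_eq]
    rw [map_smul_eq_mul, Real.norm_eq_abs, abs_of_pos (inv_pos.mpr hr)]
    rw [inv_mul_le_iff₀ hr]
    linarith
  · rw [smul_smul, mul_inv_cancel₀ hr.ne', one_smul]

lemma key (κ κ' m t : ℝ) (hk' : 0 < κ') (hkk : κ' < κ) (ht : 1 ≤ t)
    (hm : t + t ^ (1 - κ') / 2 ≤ m) :
    0 < 1 - t / m ∧ 1 - t / m ≤ 1 ∧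
    (1 / 4) ^ (1 / κ) * m ^ (1 - κ' / κ) ≤ (1 - t / m) ^ (1 / κ) * m := by
  have hκ : 0 < κ := hk'.trans hkk
  have ht0 : 0 < t := by linarith
  have hp : 0 < t ^ (1 - κ') := Real.rpow_pos_of_pos ht0 _
  have hm0 : 0 < m := by linarith
  have hm1 : 1 ≤ m := by linarith
  have hδ : m ^ (-κ') / 4 ≤ 1 - t / m := by
    rcases le_total m (2 * t) with h | h
    · have e1 : m ^ (-κ') ≤ t ^ (-κ') :=
        Real.rpow_le_rpow_of_nonpos ht0 (by linarith) (by linarith)
      have e2 : t ^ (1 - κ') = t * t ^ (-κ') := by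
        rw [sub_eq_add_neg, Real.rpow_add ht0, Real.rpow_one]
      have e3 : 1 - t / m = (m - t) / m := by field_simp
      rw [e3, le_div_iff₀ hm0]
      have e4 : 0 < t ^ (-κ') := Real.rpow_pos_of_pos ht0 _
      have e5 : 0 < m ^ (-κ') := Real.rpow_pos_of_pos hm0 _
      calc m ^ (-κ') / 4 * m ≤ t ^ (-κ') / 4 * (2 * t) := by
            apply mul_le_mul _ h hm0.le (by positivity)
            linarith
        _ = t ^ (1 - κ') / 2 := by rw [e2]; ring
        _ ≤ m - t := by linarith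
    · have e1 : m ^ (-κ') ≤ 1 := Real.rpow_le_one_of_one_le_of_nonpos hm1 (by linarith)
      have e2 : t / m ≤ 1 / 2 := by
        rw [div_le_div_iff₀ hm0 (by norm_num)]
        linarith
      linarith
  have e5 : 0 < m ^ (-κ') := Real.rpow_pos_of_pos hm0 _
  have e6 : 0 < t / m := div_pos ht0 hm0
  refine ⟨by linarith, by linarith, ?_⟩
  have e7 : (m ^ (-κ') / 4) ^ (1 / κ) ≤ (1 - t / m) ^ (1 / κ) :=
    Real.rpow_le_rpow (by positivity) hδ (by positivity)
  have e8 : (m ^ (-κ') / 4) ^ (1 / κ) * m = (1 / 4) ^ (1 / κ) * m ^ (1 - κ' / κ) := by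
    rw [div_eq_mul_one_div, Real.mul_rpow e5.le (by norm_num), ← Real.rpow_mul hm0.le,
      sub_eq_add_neg, Real.rpow_add hm0, Real.rpow_one]
    have : -κ' * (1 / κ) = -(κ' / κ) := by ring
    rw [this]
    ring
  rw [← e8]
  exact mul_le_mul_of_nonneg_right e7 hm0.le

theorem t_OUT : S_OUT := by
  intro Ω _ _ T μ c C L hc κ κ' A hk' hkk hk1 hA hT
  have hκ : 0 < κ := hk'.trans hkk
  set a : ℝ := 1 - κ' / κ with ha
  have ha0 : 0 < a := by
    rw [ha]
    have : κ' / κ < 1 := (div_lt_one hκ).mpr hkk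
    linarith
  set c2 : ℝ := (1 / 4) ^ (1 / κ) / A with hc2
  have hc20 : 0 < c2 := by positivity
  have hcp := hc.c_pos
  set f : ℤ × ℤ → ℝ := fun v => Real.exp (-((c2 / 2 * c ^ a) * (nm v : ℝ) ^ a)) with hf
  have hfs : Summable f := summ_pl _ a (by positivity) ha0
  have hf0 : ∀ v, 0 ≤ f v := fun v => (Real.exp_pos _).le
  set S : ℝ := ∑' v, f v with hS
  have hS0 : 0 ≤ S := tsum_nonneg hf0
  refine ⟨a / 2, by positivity, ?_⟩
  have T1 : Tendsto (fun t : ℝ => t ^ (1 - κ')) atTop atTop :=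
    tendsto_rpow_atTop (by linarith)
  have T2 : Tendsto (fun t : ℝ => t ^ (a / 2)) atTop atTop :=
    tendsto_rpow_atTop (by linarith)
  filter_upwards [T1.eventually_ge_atTop (2 * C), T2.eventually_ge_atTop 1,
    T2.eventually_ge_atTop ((1 + A * S) / (c2 / 2)), eventually_ge_atTop 1] with t h1 h2 h3 h4
  have ht0 : 0 < t := by linarith
  -- the covering
  have hcov : Out T μ κ' t ⊆ ⋃ v : ℤ × ℤ, {ω | T ω v ≤ t ∧ t + t ^ (1 - κ') / 2 ≤ μ (em v)} := by
    intro ω hω
    simp only [Out, mem_ofPred_eq, Set.not_subset] at hω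
    obtain ⟨x, hx, hx2⟩ := hω
    obtain ⟨v, hv1, hv2, hv3⟩ := hx
    rw [mem_iUnion]
    refine ⟨v, hv1, ?_⟩
    have hr : 0 < (1 + t ^ (-κ')) * t := by positivity
    have b1 := out_ball μ _ hr x hx2
    have b2 : μ (x - em v) ≤ C := box_bd μ c C L hc (x - em v) (by simpa [N662.FP.em] using hv2)
      (by simpa [N662.FP.em] using hv3)
    have b3 : μ x ≤ μ (x - em v) + μ (em v) := by
      have := map_add_le_add μ (x - em v) (em v)
      simpa using this
    have b4 : (1 + t ^ (-κ')) * t = t + t ^ (1 - κ') := by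
      rw [sub_eq_add_neg, Real.rpow_add ht0, Real.rpow_one]
      ring
    rw [b4] at b1
    linarith
  -- the bound for one vertex
  have hone : ∀ v : ℤ × ℤ, (volume : Measure Ω) {ω | T ω v ≤ t ∧ t + t ^ (1 - κ') / 2 ≤ μ (em v)} ≤
      ENNReal.ofReal (A * Real.exp (-(c2 / 2 * t ^ a)) * f v) := by
    intro v
    by_cases hv : t + t ^ (1 - κ') / 2 ≤ μ (em v)
    · obtain ⟨k1, k2, k3⟩ := key κ κ' (μ (em v)) t hk' hkk h4 hv
      have hm0 : 0 < μ (em v) := by
        have : 0 < t ^ (1 - κ') := Real.rpow_pos_of_pos ht0 _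
        linarith
      have hb := hT v (1 - t / μ (em v)) k1 k2
      have e1 : (1 - (1 - t / μ (em v))) * μ (em v) = t := by field_simp; ring
      rw [e1] at hb
      have hsub : {ω | T ω v ≤ t ∧ t + t ^ (1 - κ') / 2 ≤ μ (em v)} ⊆ {ω | T ω v ≤ t} :=
        fun ω hω => hω.1
      refine (measure_mono hsub).trans ?_
      rw [← ofReal_measureReal]
      apply ENNReal.ofReal_le_ofReal
      refine hb.trans ?_
      rw [mul_assoc]
      apply mul_le_mul_of_nonneg_left _ hA.le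
      rw [hf]
      simp only
      rw [← Real.exp_add]
      apply Real.exp_le_exp.mpr
      have g1 : t ^ a ≤ (μ (em v)) ^ a := by
        apply Real.rpow_le_rpow ht0.le _ ha0.le
        have : 0 < t ^ (1 - κ') := Real.rpow_pos_of_pos ht0 _
        linarith
      have g2 : c ^ a * (nm v : ℝ) ^ a ≤ (μ (em v)) ^ a := by
        rw [← Real.mul_rpow hcp.le (by positivity)]
        exact Real.rpow_le_rpow (by positivity) (hc.lo v) ha0.le
      have g3 : c2 * (μ (em v)) ^ a ≤ (1 - t / μ (em v)) ^ (1 / κ) * μ (em v) / A := by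
        rw [hc2, div_mul_eq_mul_div]
        exact div_le_div_of_nonneg_right k3 hA.le
      have g4 : c2 / 2 * t ^ a ≤ c2 / 2 * (μ (em v)) ^ a :=
        mul_le_mul_of_nonneg_left g1 (by positivity)
      have g5 : c2 / 2 * (c ^ a * (nm v : ℝ) ^ a) ≤ c2 / 2 * (μ (em v)) ^ a :=
        mul_le_mul_of_nonneg_left g2 (by positivity)
      have g6 : c2 / 2 * c ^ a * (nm v : ℝ) ^ a = c2 / 2 * (c ^ a * (nm v : ℝ) ^ a) := by ring
      rw [g6]
      linarith
    · have : {ω | T ω v ≤ t ∧ t + t ^ (1 - κ') / 2 ≤ μ (em v)} = (∅ : Set Ω) := by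
        ext ω
        simp [hv]
      rw [this]
      simp
  have hsum : (volume : Measure Ω) (Out T μ κ' t) ≤
      ENNReal.ofReal (A * Real.exp (-(c2 / 2 * t ^ a)) * S) := by
    calc (volume : Measure Ω) (Out T μ κ' t) ≤ (volume : Measure Ω)
          (⋃ v : ℤ × ℤ, {ω | T ω v ≤ t ∧ t + t ^ (1 - κ') / 2 ≤ μ (em v)}) := measure_mono hcov
      _ ≤ ∑' v : ℤ × ℤ, (volume : Measure Ω)
          {ω | T ω v ≤ t ∧ t + t ^ (1 - κ') / 2 ≤ μ (em v)} := measure_iUnion_le _
      _ ≤ ∑' v : ℤ × ℤ, ENNReal.ofReal (A * Real.exp (-(c2 / 2 * t ^ a)) * f v) :=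
          ENNReal.tsum_le_tsum hone
      _ = ENNReal.ofReal (∑' v : ℤ × ℤ, (A * Real.exp (-(c2 / 2 * t ^ a)) * f v)) := by
          rw [ENNReal.ofReal_tsum_of_nonneg]
          · intro v
            have := hf0 v
            positivity
          · exact hfs.mul_left _
      _ = ENNReal.ofReal (A * Real.exp (-(c2 / 2 * t ^ a)) * S) := by
          rw [tsum_mul_left]
  have hreal : (volume : Measure Ω).real (Out T μ κ' t) ≤
      A * Real.exp (-(c2 / 2 * t ^ a)) * S := by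
    rw [Measure.real]
    exact ENNReal.toReal_le_of_le_ofReal (by positivity) hsum
  refine hreal.trans ?_
  set s : ℝ := t ^ (a / 2) with hs
  have es : t ^ a = s ^ 2 := by
    rw [hs, ← Real.rpow_natCast, ← Real.rpow_mul ht0.le]
    congr 1
    push_cast
    ring
  rw [es]
  have f1 : A * S ≤ Real.exp (A * S) := by
    have := Real.add_one_le_exp (A * S)
    linarith
  have f2 : A * S + s ≤ c2 / 2 * s ^ 2 := by
    have g1 : 1 + A * S ≤ s * (c2 / 2) := (div_le_iff₀ (by positivity)).mp h3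
    have g2 : 0 ≤ A * S := by positivity
    nlinarith
  calc A * Real.exp (-(c2 / 2 * s ^ 2)) * S = (A * S) * Real.exp (-(c2 / 2 * s ^ 2)) := by ring
    _ ≤ Real.exp (A * S) * Real.exp (-(c2 / 2 * s ^ 2)) :=
        mul_le_mul_of_nonneg_right f1 (Real.exp_pos _).le
    _ = Real.exp (A * S - c2 / 2 * s ^ 2) := by rw [← Real.exp_add]; ring_nf
    _ ≤ Real.exp (-s) := Real.exp_le_exp.mpr (by linarith)

end Pool.Agent.Run7.h637.OH
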