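import Pool.Agent.Run7.h472.OH.Iface2
import Pool.Agent.Run7.h637.OH.OUT

set_option autoImplicit false
open MeasureTheory ProbabilityTheory Filter Set
open scoped ENNReal Pointwise Topology

namespace Pool.Agent.Run7.h637.OH

open Pool.Agent.N662.FP Pool.Agent.Run7.h472.OH

/-- telescoping bound -/
lemma tele (a x : ℝ) (ha : 0 < a) (hx : 1 < x) :
    x ^ (-(a + 1)) ≤ (1 / a) * ((x - 1) ^ (-a) - x ^ (-a)) := by
  have hx0 : 0 < x := by linarith
  have hx1 : 0 < x - 1 := by linarith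
  have h1 : (x - 1) ^ (-a) = x ^ (-a) * ((x - 1) / x) ^ (-a) := by
    rw [← Real.mul_rpow hx0.le (by positivity)]
    congr 1
    field_simp
  have h2 : 1 + a * (1 / x) ≤ ((x - 1) / x) ^ (-a) := by
    have hy : 0 < (x - 1) / x := by positivity
    rw [Real.rpow_def_of_pos hy]
    have h3 : Real.log ((x - 1) / x) ≤ (x - 1) / x - 1 := Real.log_le_sub_one_of_pos hy
    have h4 : (x - 1) / x - 1 = -(1 / x) := by field_simp; ring
    rw [h4] at h3
    have h5 : a * (1 / x) ≤ Real.log ((x - 1) / x) * -a := by nlinarith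
    have h6 := Real.add_one_le_exp (Real.log ((x - 1) / x) * -a)
    linarith
  have h7 : x ^ (-(a + 1)) = x ^ (-a) * (1 / x) := by
    rw [neg_add, Real.rpow_add hx0, Real.rpow_neg_one, one_div]
  have h8 : 0 < x ^ (-a) := Real.rpow_pos_of_pos hx0 _
  rw [h7, h1]
  have h9 : x ^ (-a) * (a * (1 / x)) ≤ x ^ (-a) * (((x - 1) / x) ^ (-a) - 1) :=
    mul_le_mul_of_nonneg_left (by linarith) h8.le
  rw [one_div a, le_inv_mul_iff₀ ha]
  linarith

/-- partial sums -/
lemma part (a R : ℝ) (ha : 0 < a) (hR : 1 ≤ R) (N : ℕ) :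
    ∑ n ∈ Finset.range N, (R + n) ^ (-(a + 1)) ≤ (1 + 1 / a) * R ^ (-a) := by
  have hR0 : 0 < R := by linarith
  have key : ∀ N : ℕ, ∑ n ∈ Finset.range (N + 1), (R + n) ^ (-(a + 1)) ≤
      R ^ (-(a + 1)) + (1 / a) * (R ^ (-a) - (R + N) ^ (-a)) := by
    intro N
    induction N with
    | zero => simp
    | succ N ih =>
      rw [Finset.sum_range_succ]
      have h := tele a (R + (N + 1 : ℕ)) ha (by push_cast; linarith [(Nat.cast_nonneg N : (0 : ℝ) ≤ N)])
      have e : R + ((N + 1 : ℕ) : ℝ) - 1 = R + N := by push_cast; ring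
      rw [e] at h
      linarith
  have h1 : ∑ n ∈ Finset.range N, (R + n) ^ (-(a + 1)) ≤
      ∑ n ∈ Finset.range (N + 1), (R + (n : ℝ)) ^ (-(a + 1)) := by
    rw [Finset.sum_range_succ]
    have : 0 ≤ (R + (N : ℝ)) ^ (-(a + 1)) := by positivity
    linarith
  have h2 := key N
  have h3 : 0 ≤ (R + (N : ℝ)) ^ (-a) := by positivity
  have h4 : R ^ (-(a + 1)) ≤ R ^ (-a) := Real.rpow_le_rpow_of_exponent_le hR (by linarith)
  have h5 : 0 ≤ (1 / a) * (R + (N : ℝ)) ^ (-a) := by positivity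
  calc _ ≤ _ := h1
    _ ≤ _ := h2
    _ ≤ (1 + 1 / a) * R ^ (-a) := by linarith

lemma tsum_N (a R : ℝ) (ha : 0 < a) (hR : 1 ≤ R) :
    ∑' n : ℕ, ENNReal.ofReal ((R + n) ^ (-(a + 1))) ≤ ENNReal.ofReal ((1 + 1 / a) * R ^ (-a)) := by
  rw [ENNReal.tsum_eq_iSup_nat]
  apply iSup_le
  intro N
  rw [← ENNReal.ofReal_sum_of_nonneg (fun n _ => by positivity)]
  exact ENNReal.ofReal_le_ofReal (part a R ha hR N)

lemma tsum_Z (a R : ℝ) (ha : 0 < a) (hR : 1 ≤ R) :
    ∑' n : ℤ, ENNReal.ofReal ((R + |(n : ℝ)|) ^ (-(a + 1))) ≤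
      ENNReal.ofReal (2 * (1 + 1 / a) * R ^ (-a)) := by
  rw [tsum_of_nat_of_neg_add_one ENNReal.summable ENNReal.summable]
  have h1 : ∑' n : ℕ, ENNReal.ofReal ((R + |(((n : ℕ) : ℤ) : ℝ)|) ^ (-(a + 1))) ≤
      ENNReal.ofReal ((1 + 1 / a) * R ^ (-a)) := by
    refine le_trans (le_of_eq ?_) (tsum_N a R ha hR)
    congr 1
    funext n
    simp
  have h2 : ∑' n : ℕ, ENNReal.ofReal ((R + |((-((n : ℤ) + 1) : ℤ) : ℝ)|) ^ (-(a + 1))) ≤
      ENNReal.ofReal ((1 + 1 / a) * R ^ (-a)) := by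
    refine le_trans (ENNReal.tsum_le_tsum ?_) (tsum_N a R ha hR)
    intro n
    apply ENNReal.ofReal_le_ofReal
    have e : |((-((n : ℤ) + 1) : ℤ) : ℝ)| = n + 1 := by
      push_cast
      rw [abs_neg, abs_of_nonneg (by positivity)]
    rw [e]
    apply Real.rpow_le_rpow_of_nonpos (by positivity) (by linarith) (by linarith)
  refine (add_le_add h1 h2).trans (le_of_eq ?_)
  rw [← ENNReal.ofReal_add (by positivity) (by positivity)]
  congr 1
  ring

lemma tsum_ZZ (a R : ℝ) (ha : 0 < a) (hR : 1 ≤ R) :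
    ∑' v : ℤ × ℤ, ENNReal.ofReal ((R + |(v.1 : ℝ)|) ^ (-(a + 1)) * (R + |(v.2 : ℝ)|) ^ (-(a + 1))) ≤
      ENNReal.ofReal ((2 * (1 + 1 / a)) ^ 2 * (R ^ (-a)) ^ 2) := by
  have h1 : ∀ v : ℤ × ℤ,
      ENNReal.ofReal ((R + |(v.1 : ℝ)|) ^ (-(a + 1)) * (R + |(v.2 : ℝ)|) ^ (-(a + 1))) =
      ENNReal.ofReal ((R + |(v.1 : ℝ)|) ^ (-(a + 1))) *
        ENNReal.ofReal ((R + |(v.2 : ℝ)|) ^ (-(a + 1))) := by
    intro v
    rw [ENNReal.ofReal_mul (by positivity)]
  simp_rw [h1]
  rw [ENNReal.tsum_prod']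
  simp only
  simp_rw [ENNReal.tsum_mul_left, ENNReal.tsum_mul_right]
  refine (mul_le_mul' (tsum_Z a R ha hR) (tsum_Z a R ha hR)).trans (le_of_eq ?_)
  rw [← ENNReal.ofReal_mul (by positivity)]
  congr 1
  ring

theorem t_OUT2 : S_OUT2 := by
  intro Ω _ _ T μ c C L hc κ κ' q hk' hkk hk1 hq hLT
  obtain ⟨A, hA, hT⟩ := hLT
  have hκ : 0 < κ := hk'.trans hkk
  have hcp := hc.c_pos
  have hCp := hc.C_pos
  set a : ℝ := q / 2 - 1 with ha
  have ha0 : 0 < a := by rw [ha]; linarith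
  have hqa : -q = -(a + 1) + -(a + 1) := by rw [ha]; ring
  set K0 : ℝ := A * (1 + 2 / c) ^ (1 - κ) with hK0
  have hK00 : 0 < K0 := by positivity
  set K1 : ℝ := A * (2 : ℝ) ^ q * ((2 * (1 + 1 / a)) ^ 2 * (C ^ a) ^ 2) with hK1
  have T1 : Tendsto (fun t : ℝ => t ^ (1 - κ')) atTop atTop :=
    tendsto_rpow_atTop (by linarith)
  have T2 : Tendsto (fun t : ℝ => t ^ (κ - κ')) atTop atTop :=
    tendsto_rpow_atTop (by linarith)
  have T3 : Tendsto (fun t : ℝ => t ^ κ) atTop atTop := tendsto_rpow_atTop hκ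
  refine Asymptotics.IsBigO.of_bound K1 ?_
  filter_upwards [T1.eventually_ge_atTop (2 * C), T2.eventually_ge_atTop (2 * K0),
    T3.eventually_ge_atTop (2 * K0), eventually_ge_atTop 1, eventually_ge_atTop C]
    with t h1 h2 h3 h4 h5
  have ht0 : 0 < t := by linarith
  have htp : 0 < t ^ (1 - κ') := Real.rpow_pos_of_pos ht0 _
  set R : ℝ := t / C with hR
  have hR1 : 1 ≤ R := by rw [hR, le_div_iff₀ hCp]; linarith
  have hR0 : 0 < R := by linarith
  -- the covering
  have hcov : Out T μ κ' t ⊆ ⋃ v : ℤ × ℤ, {ω | T ω v ≤ t ∧ t + t ^ (1 - κ') / 2 ≤ μ (em v)} := by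
    intro ω hω
    simp only [Out, mem_ofPred_eq, Set.not_subset] at hω
    obtain ⟨x, hx, hx2⟩ := hω
    obtain ⟨v, hv1, hv2, hv3⟩ := hx
    rw [mem_iUnion]
    refine ⟨v, hv1, ?_⟩
    have hr : 0 < (1 + t ^ (-κ')) * t := by positivity
    have b1 := out_ball μ _ hr x hx2
    have b2 : μ (x - em v) ≤ C := box_bd μ c C L hc (x - em v) (by simpa [N662.FP.em] using hv2)
      (by simpa [N662.FP.em] using hv3)
    have b3 : μ x ≤ μ (x - em v) + μ (em v) := by
      have := map_add_le_add μ (x - em v) (em v)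
      simpa using this
    have b4 : (1 + t ^ (-κ')) * t = t + t ^ (1 - κ') := by
      rw [sub_eq_add_neg, Real.rpow_add ht0, Real.rpow_one]
      ring
    rw [b4] at b1
    linarith
  -- one vertex
  have hone : ∀ v : ℤ × ℤ, (volume : Measure Ω) {ω | T ω v ≤ t ∧ t + t ^ (1 - κ') / 2 ≤ μ (em v)} ≤
      ENNReal.ofReal (A * (2 : ℝ) ^ q) *
        ENNReal.ofReal ((R + |(v.1 : ℝ)|) ^ (-(a + 1)) * (R + |(v.2 : ℝ)|) ^ (-(a + 1))) := by
    intro v
    by_cases hv : t + t ^ (1 - κ') / 2 ≤ μ (em v)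
    · set m := μ (em v) with hm
      have hm0 : 0 < m := by linarith
      have hm1 : 1 ≤ m := by linarith
      have hnm : (nm v : ℝ) ≤ m / c := by
        rw [le_div_iff₀ hcp]
        have := hc.lo v
        linarith
      have hnl : R ≤ nm v := by
        rw [hR, div_le_iff₀ hCp]
        have := hc.hi v
        linarith
      have hpow : A * (1 + (nm v : ℝ)) ^ (1 - κ) ≤ m - t := by
        have g1 : (1 + (nm v : ℝ)) ^ (1 - κ) ≤ (1 + m / c) ^ (1 - κ) :=
          Real.rpow_le_rpow (by positivity) (by linarith) (by linarith)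
        rcases le_total m (2 * t) with h | h
        · have g2 : (1 + m / c) ^ (1 - κ) ≤ ((1 + 2 / c) * t) ^ (1 - κ) := by
            apply Real.rpow_le_rpow (by positivity) _ (by linarith)
            have : m / c ≤ 2 * t / c := div_le_div_of_nonneg_right h hcp.le
            have e : (1 + 2 / c) * t = t + 2 * t / c := by ring
            rw [e]
            linarith
          rw [Real.mul_rpow (by positivity) ht0.le] at g2
          have g3 : t ^ (1 - κ') = t ^ (1 - κ) * t ^ (κ - κ') := by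
            rw [← Real.rpow_add ht0]; congr 1; ring
          have g4 : 0 < t ^ (1 - κ) := Real.rpow_pos_of_pos ht0 _
          calc A * (1 + (nm v : ℝ)) ^ (1 - κ) ≤ A * ((1 + 2 / c) ^ (1 - κ) * t ^ (1 - κ)) :=
                mul_le_mul_of_nonneg_left (g1.trans g2) hA.le
            _ = K0 * t ^ (1 - κ) := by rw [hK0]; ring
            _ ≤ t ^ (1 - κ') / 2 := by rw [g3]; nlinarith
            _ ≤ m - t := by linarith
        · have g2 : (1 + m / c) ^ (1 - κ) ≤ ((1 + 2 / c) * m) ^ (1 - κ) := by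
            apply Real.rpow_le_rpow (by positivity) _ (by linarith)
            have e : (1 + 2 / c) * m = m + 2 * (m / c) := by ring
            rw [e]
            have : 0 < m / c := by positivity
            linarith
          rw [Real.mul_rpow (by positivity) hm0.le] at g2
          have g3 : m = m ^ (1 - κ) * m ^ κ := by
            rw [← Real.rpow_add hm0]; simp
          have g4 : 0 < m ^ (1 - κ) := Real.rpow_pos_of_pos hm0 _
          have g5 : t ^ κ ≤ m ^ κ := Real.rpow_le_rpow ht0.le (by linarith) hκ.le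
          have g6 : K0 * m ^ (1 - κ) ≤ m / 2 := by
            have : m ^ (1 - κ) * (2 * K0) ≤ m ^ (1 - κ) * m ^ κ :=
              mul_le_mul_of_nonneg_left (by linarith) g4.le
            linarith
          calc A * (1 + (nm v : ℝ)) ^ (1 - κ) ≤ A * ((1 + 2 / c) ^ (1 - κ) * m ^ (1 - κ)) :=
                mul_le_mul_of_nonneg_left (g1.trans g2) hA.le
            _ = K0 * m ^ (1 - κ) := by rw [hK0]; ring
            _ ≤ m / 2 := g6
            _ ≤ m - t := by linarith
      have hsub : {ω | T ω v ≤ t ∧ t + t ^ (1 - κ') / 2 ≤ m} ⊆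
          {ω | T ω v ≤ m - A * (1 + (nm v : ℝ)) ^ (1 - κ)} := by
        intro ω hω
        have := hω.1
        simp only [mem_ofPred_eq]
        linarith
      refine (measure_mono hsub).trans ?_
      rw [← ofReal_measureReal, ← ENNReal.ofReal_mul (by positivity)]
      apply ENNReal.ofReal_le_ofReal
      refine (hT v).trans ?_
      have q1 : (1 + (nm v : ℝ)) ^ (-q) =
          (1 + (nm v : ℝ)) ^ (-(a + 1)) * (1 + (nm v : ℝ)) ^ (-(a + 1)) := by
        rw [← Real.rpow_add (by positivity), ← hqa]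
      have hn1 : |(v.1 : ℝ)| ≤ nm v := by rw [nm_cast]; exact le_max_left _ _
      have hn2 : |(v.2 : ℝ)| ≤ nm v := by rw [nm_cast]; exact le_max_right _ _
      have q2 : ∀ b : ℝ, 0 ≤ b → b ≤ nm v → (1 + (nm v : ℝ)) ^ (-(a + 1)) ≤
          (2 : ℝ) ^ (a + 1) * (R + b) ^ (-(a + 1)) := by
        intro b hb0 hb
        have e1 : (2 : ℝ) ^ (a + 1) * (R + b) ^ (-(a + 1)) = ((R + b) / 2) ^ (-(a + 1)) := by
          rw [Real.div_rpow (by positivity) (by norm_num), Real.rpow_neg (by norm_num : (0 : ℝ) ≤ 2)]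
          field_simp
        rw [e1]
        apply Real.rpow_le_rpow_of_nonpos (by positivity) _ (by linarith)
        linarith
      have q3 := q2 |(v.1 : ℝ)| (abs_nonneg _) hn1
      have q4 := q2 |(v.2 : ℝ)| (abs_nonneg _) hn2
      have q5 : (2 : ℝ) ^ q = (2 : ℝ) ^ (a + 1) * (2 : ℝ) ^ (a + 1) := by
        rw [← Real.rpow_add (by norm_num)]
        congr 1
        rw [ha]; ring
      rw [q1, q5, mul_assoc A]
      apply mul_le_mul_of_nonneg_left _ hA.le
      calc (1 + (nm v : ℝ)) ^ (-(a + 1)) * (1 + (nm v : ℝ)) ^ (-(a + 1)) ≤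
            ((2 : ℝ) ^ (a + 1) * (R + |(v.1 : ℝ)|) ^ (-(a + 1))) *
            ((2 : ℝ) ^ (a + 1) * (R + |(v.2 : ℝ)|) ^ (-(a + 1))) :=
            mul_le_mul q3 q4 (by positivity) (by positivity)
        _ = _ := by ring
    · have : {ω | T ω v ≤ t ∧ t + t ^ (1 - κ') / 2 ≤ μ (em v)} = (∅ : Set Ω) := by
        ext ω
        simp [hv]
      rw [this]
      simp
  have hsum : (volume : Measure Ω) (Out T μ κ' t) ≤ ENNReal.ofReal (K1 * t ^ (-(q - 2))) := by
    calc (volume : Measure Ω) (Out T μ κ' t) ≤ (volume : Measure Ω)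
          (⋃ v : ℤ × ℤ, {ω | T ω v ≤ t ∧ t + t ^ (1 - κ') / 2 ≤ μ (em v)}) := measure_mono hcov
      _ ≤ ∑' v : ℤ × ℤ, (volume : Measure Ω)
          {ω | T ω v ≤ t ∧ t + t ^ (1 - κ') / 2 ≤ μ (em v)} := measure_iUnion_le _
      _ ≤ ∑' v : ℤ × ℤ, ENNReal.ofReal (A * (2 : ℝ) ^ q) *
          ENNReal.ofReal ((R + |(v.1 : ℝ)|) ^ (-(a + 1)) * (R + |(v.2 : ℝ)|) ^ (-(a + 1))) :=
          ENNReal.tsum_le_tsum hone
      _ ≤ ENNReal.ofReal (A * (2 : ℝ) ^ q) *
          ENNReal.ofReal ((2 * (1 + 1 / a)) ^ 2 * (R ^ (-a)) ^ 2) := by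
          rw [ENNReal.tsum_mul_left]
          exact mul_le_mul' le_rfl (tsum_ZZ a R ha0 hR1)
      _ = ENNReal.ofReal (K1 * t ^ (-(q - 2))) := by
          rw [← ENNReal.ofReal_mul (by positivity)]
          congr 1
          have e1 : R ^ (-a) = C ^ a * t ^ (-a) := by
            rw [hR, Real.div_rpow ht0.le hCp.le, Real.rpow_neg hCp.le]
            field_simp
          have e2 : t ^ (-(q - 2)) = (t ^ (-a)) ^ 2 := by
            rw [← Real.rpow_natCast, ← Real.rpow_mul ht0.le]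
            congr 1
            rw [ha]
            push_cast
            ring
          rw [e1, e2, hK1]
          ring
  rw [Real.norm_of_nonneg measureReal_nonneg, Real.norm_of_nonneg (by positivity)]
  rw [Measure.real]
  exact ENNReal.toReal_le_of_le_ofReal (by positivity) hsum

end Pool.Agent.Run7.h637.OH
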